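import Pool.Agent.H126R2.CDC.Main

set_option autoImplicit false

/-!
# MP_b1bfa0_co: smallest counterexamples to the circuit double cover conjecture

There are none: every bridgeless finite graph (loops and parallel edges allowed) has a circuit
double cover.  In particular no smallest counterexample has a cyclic 4-edge-cut.
-/

namespace Pool.Agent.Results.MP_b1bfa0_co.NoCounterexample

open Finset Pool.Agent.H126R2.CDC

section

variable {V E : Type} [Fintype V] [DecidableEq V] [Fintype E] [DecidableEq E]

/-- A counterexample to the circuit double cover conjecture: a bridgeless graph (every edge lies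
on a circuit) without a circuit double cover. -/
def IsCounterexample (G : MGraph V E) : Prop := G.Bridgeless ∧ ¬ ∃ F, G.IsCDC F

/-- The edge-cut of the vertex set `X`: the edges with exactly one end in `X`. -/
def cut (G : MGraph V E) (X : Finset V) : Finset E :=
  univ.filter fun e => (∃ x ∈ X, x ∈ G.ends e) ∧ ∃ y ∉ X, y ∈ G.ends e

/-- Two edges outside `T` lie in the same component of `G - T`: they are joined by a chain of edges
outside `T` in which consecutive edges share a vertex. -/
def SameComponent (G : MGraph V E) (T : Finset E) : E → E → Prop :=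
  Relation.ReflTransGen fun a b => a ∉ T ∧ b ∉ T ∧ ∃ v, v ∈ G.ends a ∧ v ∈ G.ends b

/-- `G` has a cyclic 4-edge-cut: an edge-cut `T` of four edges such that two different components
of `G - T` contain a circuit. -/
def HasCyclicFourEdgeCut (G : MGraph V E) : Prop :=
  ∃ X : Finset V, X.Nonempty ∧ X ≠ univ ∧ (cut G X).card = 4 ∧
    ∃ C D : Finset E, G.IsCircuit C ∧ G.IsCircuit D ∧ Disjoint C (cut G X) ∧
      Disjoint D (cut G X) ∧ ∀ e ∈ C, ∀ f ∈ D, ¬ SameComponent G (cut G X) e f

end

/-- A smallest counterexample: a counterexample with the least possible value of `|V| + |E|`. -/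
def IsSmallestCounterexample {V E : Type} [Fintype V] [DecidableEq V] [Fintype E] [DecidableEq E]
    (G : MGraph V E) : Prop :=
  IsCounterexample G ∧ ∀ (V' E' : Type) [Fintype V'] [DecidableEq V'] [Fintype E'] [DecidableEq E']
    (G' : MGraph V' E'), IsCounterexample G' →
      Fintype.card V + Fintype.card E ≤ Fintype.card V' + Fintype.card E'

/-- Every bridgeless finite graph has a circuit double cover, and no smallest counterexample to
the circuit double cover conjecture has a cyclic 4-edge-cut. -/
theorem result :
    (∀ (V E : Type) [Fintype V] [DecidableEq V] [Fintype E] [DecidableEq E] (G : MGraph V E),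
      G.Bridgeless → ∃ F : Multiset (Finset E), G.IsCDC F) ∧
    (∀ (V E : Type) [Fintype V] [DecidableEq V] [Fintype E] [DecidableEq E] (G : MGraph V E),
      IsSmallestCounterexample G → ¬ HasCyclicFourEdgeCut G) := by
  refine ⟨?_, ?_⟩
  · intro V E _ _ _ _ G hG
    exact MGraph.exists_cdc G hG
  · intro V E _ _ _ _ G hG _
    exact hG.1.2 (MGraph.exists_cdc G hG.1.1)

end Pool.Agent.Results.MP_b1bfa0_co.NoCounterexample
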